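import Pool.Agent.H696R2.RD.Rand

set_option autoImplicit false

/-!
# MP_33dedf_lc, Q1: negative answer (with `Z = ∅`, for a dense set of `s`)

Definitions used in the statement (from `Pool.Agent.Helper227`):
* `TLe A B` : Turing reducibility; `jump A` : the Turing jump of `A`;
  `zero` : the empty set, so `jump zero` is the halting problem;
* `IsMachineIn A M` : `M` is a prefix-free machine relative to `A`;
  `IsUniversalIn A U` : `U` is a universal (optimal) prefix-free machine relative to `A`
  (they exist relative to every oracle: `exists_universalIn`);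
* `KU U y` : the complexity of the string `y` with respect to the machine `U`
  (for `U` universal relative to `A` this is `K^A(y)`);
* `dimU U X = liminf KU U (X ↾ n) / n` (for `U` universal relative to `A` this is `dim^A(X)`,
  independently of the choice of `U`: `dimension_independent` below);
and from `Pool.Agent.H696R2.RD`:
* `rbin S` : the real number with binary expansion `0.S(0)S(1)S(2)...`.
-/

namespace Pool.Agent.Results.MP_33dedf_lc.NegativeDense

open Pool.Agent.Helper227 Pool.Agent.H696R2.RD

/-- Relative to every oracle there are universal prefix-free machines. -/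
theorem universal_exists (A : ℕ → Bool) : ∃ U, IsUniversalIn A U := exists_universalIn A

/-- The effective dimension relative to `A` does not depend on the choice of the universal
machine. -/
theorem dimension_independent {A : ℕ → Bool} {U V : List Bool →. List Bool}
    (hU : IsUniversalIn A U) (hV : IsUniversalIn A V) (X : ℕ → Bool) : dimU U X = dimU V X :=
  dimU_eq hU hV X

/-- Every interval `(a, b) ⊆ [0, 1]` contains a real `s = 0.S(0)S(1)S(2)...` whose binary
expansion `S` is random relative to `0'` (hence `dim^{0'}(S) > s`), such that `S ≤_T X'` for every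
oracle `Z` and every `X ≥_T Z` with `dim^Z(X) = s`. With `Z = ∅` this is the negated form of
Q1. -/
theorem result (a b : ℝ) (ha : 0 ≤ a) (hab : a < b) (hb : b ≤ 1) :
    ∃ S : ℕ → Bool, (a < rbin S ∧ rbin S < b) ∧
      (∀ V, IsUniversalIn (jump zero) V →
        (∃ c : ℕ, ∀ n, n ≤ KU V ((List.range n).map S) + c) ∧ ENNReal.ofReal (rbin S) < dimU V S) ∧
      ∀ (Z X : ℕ → Bool) (U : List Bool →. List Bool), IsUniversalIn Z U → TLe Z X →
        dimU U X = ENNReal.ofReal (rbin S) → TLe S (jump X) := by
  obtain ⟨V₀, hV₀⟩ := exists_universalIn (jump zero)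
  obtain ⟨σ, h1, h2⟩ := exists_str ha hab hb
  have h5 := rbin_lower (app σ (Neg.YY V₀)) σ.length
  have h6 := rbin_upper (app σ (Neg.YY V₀)) σ.length
  rw [pre_app_le] at h5 h6
  refine ⟨app σ (Neg.YY V₀), ⟨by linarith, by linarith⟩, fun V hV => ?_, fun Z X U hU hZ hd => ?_⟩
  · obtain ⟨c, hc⟩ := random_app hV₀ hV (Y := Neg.YY V₀) (fun n => by
      obtain ⟨τ, h7, h8⟩ := hV₀.exists_min (pre (Neg.YY V₀) n)
      have h9 := Neg.not_bad_pre (Neg.not_bad_YY (ext_nil hV₀.1.2) n) h8
      omega) σ
    refine ⟨⟨c, hc⟩, lt_of_lt_of_le ?_ (one_le_dimU hc)⟩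
    rw [ENNReal.ofReal_lt_one]
    linarith
  · exact main_cut hU hZ (TLe.refl (jump X))
      ((SI.iff_ceIn.2 (si_upperCut hV₀.1 σ)).mono (TLe.jump (tLe_zero X))) hd

/-- The negated form of Q1, literally: with `Z = ∅` there is `s ∈ (0, 1)` such that every `X` with
`dim(X) = s` has some `Y ≤_T X'` with `dim^{0'}(Y) > s`. -/
theorem negated_form : ∃ s : ℝ, 0 < s ∧ s < 1 ∧ ∀ X : ℕ → Bool,
    (∃ U, IsUniversalIn zero U ∧ dimU U X = ENNReal.ofReal s) →
    ∃ Y : ℕ → Bool, TLe Y (jump X) ∧
      ∀ V, IsUniversalIn (jump zero) V → ENNReal.ofReal s < dimU V Y := by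
  obtain ⟨S, ⟨h1, h2⟩, h3, h4⟩ := result 0 1 le_rfl one_pos le_rfl
  refine ⟨rbin S, h1, h2, fun X hX => ?_⟩
  obtain ⟨U, hU, hd⟩ := hX
  exact ⟨S, h4 zero X U hU (tLe_zero X) hd, fun V hV => (h3 V hV).2⟩

end Pool.Agent.Results.MP_33dedf_lc.NegativeDense
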